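import Pool.Agent.H82.KL.Targets2

/-!
# Plateau symbols
-/

set_option autoImplicit false

namespace Pool.Agent.H19.KL

open Pool.Agent.H82.KL Set
open scoped Manifold ContDiff

theorem bump_main : T_BUMP := by
  intro d a ha
  obtain ⟨-, hc, h0⟩ := ha
  have hK : IsCompact (tsupport a) := hc
  obtain ⟨K, hK1, hK2, hK3⟩ := exists_compact_between hK isOpen_compl_singleton
    (show tsupport a ⊆ ({(0 : EE d)}ᶜ : Set (EE d)) from fun x hx h => h0 (by rwa [← (h : x = 0)]))
  obtain ⟨f, hf1, hf2, -⟩ := exists_contMDiffMap_one_nhds_of_subset_interior (n := (⊤ : ℕ∞))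
    𝓘(ℝ, EE d) (isClosed_tsupport a) hK2
  have hfK : tsupport (f : EE d → ℝ) ⊆ K := by
    refine closure_minimal (fun x hx => ?_) hK1.isClosed
    by_contra hxK
    exact hx (hf2 x hxK)
  have hft : tsupport (fun ξ => ((f ξ : ℝ) : ℂ)) ⊆ tsupport (f : EE d → ℝ) := by
    refine closure_mono fun x hx => ?_
    intro h
    apply hx
    change ((f x : ℝ) : ℂ) = 0
    rw [h, Complex.ofReal_zero]
  refine ⟨fun ξ => ((f ξ : ℝ) : ℂ), ⟨?_, ?_, ?_⟩, fun ξ hξ => ?_⟩
  · exact Complex.ofRealCLM.contDiff.comp f.contMDiff.contDiff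
  · exact hK1.of_isClosed_subset (isClosed_tsupport _) (hft.trans hfK)
  · intro h
    exact hK3 (hfK (hft h)) rfl
  · have h := (mem_nhdsSet_iff_forall.1 hf1) ξ hξ
    have h2 := mem_of_mem_nhds h
    change ((f ξ : ℝ) : ℂ) = 1
    have h3 : f ξ = 1 := h2
    rw [h3, Complex.ofReal_one]

end Pool.Agent.H19.KL
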