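import Pool.Agent.H82.KL.Targets

/-!
# Separated sets: packing, sums, shells
-/

set_option autoImplicit false

namespace Pool.Agent.H19.KL

open Pool.Agent.H82.KL MeasureTheory Set

theorem pack_main : T_PACK := by
  intro d
  obtain ⟨μ, hμ⟩ : ∃ μ : Measure (EE d × ℝ), μ.IsAddHaarMeasure :=
    ⟨(volume : Measure (EE d)).prod (volume : Measure ℝ), inferInstance⟩
  have hμ0 : 0 < μ (Metric.ball (0 : EE d × ℝ) 1) := Metric.measure_ball_pos _ _ one_pos
  have hμt : μ (Metric.ball (0 : EE d × ℝ) 1) ≠ ⊤ := measure_ball_lt_top.ne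
  have hfr : Module.finrank ℝ (EE d × ℝ) = d + 1 := by
    rw [Module.finrank_prod, finrank_euclideanSpace_fin, Module.finrank_self]
  refine ⟨2 ^ (d + 1), by positivity, fun Y z r hY hr hYr => ?_⟩
  have hball : ∀ (x : EE d × ℝ) (ρ : ℝ), 0 < ρ → μ (Metric.ball x ρ) =
      ENNReal.ofReal (ρ ^ (d + 1)) * μ (Metric.ball (0 : EE d × ℝ) 1) := by
    intro x ρ hρ
    rw [Measure.addHaar_ball_of_pos μ x hρ, hfr]
  have hdisj : Set.PairwiseDisjoint (Y : Set (EE d × ℝ)) fun x => Metric.ball x (1 / 2) := by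
    intro x hx y hy hxy
    refine Metric.ball_disjoint_ball ?_
    have := hY x hx y hy hxy
    linarith
  have hsub : (⋃ x ∈ Y, Metric.ball x (1 / 2)) ⊆ Metric.ball z (r + 1) := by
    intro y hy
    obtain ⟨x, hx, hxy⟩ := mem_iUnion₂.1 hy
    rw [Metric.mem_ball] at hxy ⊢
    have h1 := hYr x hx
    calc dist y z ≤ dist y x + dist x z := dist_triangle _ _ _
      _ < r + 1 := by
        rw [dist_comm x z]
        linarith
  have h1 : ∑ x ∈ Y, μ (Metric.ball x (1 / 2)) ≤ μ (Metric.ball z (r + 1)) := by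
    rw [← measure_biUnion_finset hdisj fun x _ => measurableSet_ball]
    exact measure_mono hsub
  rw [Finset.sum_congr rfl fun x _ => hball x (1 / 2) (by norm_num), hball z (r + 1) (by linarith),
    Finset.sum_const, nsmul_eq_mul, ← mul_assoc] at h1
  have h2 := (ENNReal.mul_le_mul_iff_left hμ0.ne' hμt).1 h1
  have h3 : (Y.card : ℝ) * (1 / 2) ^ (d + 1) ≤ (r + 1) ^ (d + 1) := by
    have h4 : ENNReal.ofReal ((Y.card : ℝ) * (1 / 2) ^ (d + 1)) ≤
        ENNReal.ofReal ((r + 1) ^ (d + 1)) := by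
      rw [ENNReal.ofReal_mul (by positivity), ENNReal.ofReal_natCast]
      exact h2
    exact (ENNReal.ofReal_le_ofReal_iff (by positivity)).1 h4
  have h5 : (2 : ℝ) ^ (d + 1) * (1 / 2) ^ (d + 1) = 1 := by
    rw [← mul_pow]; norm_num
  calc (Y.card : ℝ) = 2 ^ (d + 1) * ((Y.card : ℝ) * (1 / 2) ^ (d + 1)) := by
        linear_combination (-(Y.card : ℝ)) * h5
    _ ≤ 2 ^ (d + 1) * (r + 1) ^ (d + 1) := mul_le_mul_of_nonneg_left h3 (by positivity)
    _ = 2 ^ (d + 1) * (1 + r) ^ (d + 1) := by rw [add_comm r 1]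

end Pool.Agent.H19.KL
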