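import Pool.Agent.H82.KL.Targets

/-!
# Sums over separated sets
-/

set_option autoImplicit false

namespace Pool.Agent.H19.KL

open Pool.Agent.H82.KL MeasureTheory Set

theorem psum_main (h : T_PACK) : T_PSUM := by
  classical
  intro d
  obtain ⟨C, hC, hP⟩ := h d
  refine ⟨C * 4 ^ (d + 1) * 2, by positivity, fun Y z hY => ?_⟩
  let κ : EE d × ℝ → ℕ := fun z' => Nat.log 2 ⌊1 + dist z z'⌋₊
  have h1 : ∀ z', (2 : ℝ) ^ κ z' ≤ 1 + dist z z' := by
    intro z'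
    have h2 : ⌊1 + dist z z'⌋₊ ≠ 0 := by
      have : 1 ≤ ⌊1 + dist z z'⌋₊ := Nat.le_floor (by
        have := dist_nonneg (x := z) (y := z'); push_cast; linarith)
      omega
    have h3 := Nat.pow_log_le_self 2 h2
    have h4 : ((2 ^ κ z' : ℕ) : ℝ) ≤ (⌊1 + dist z z'⌋₊ : ℝ) := by exact_mod_cast h3
    have h5 := Nat.floor_le (a := 1 + dist z z') (by have := dist_nonneg (x := z) (y := z'); linarith)
    push_cast at h4
    linarith
  have h2 : ∀ z', 1 + dist z z' ≤ (2 : ℝ) ^ (κ z' + 1) := by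
    intro z'
    have h3 : ⌊1 + dist z z'⌋₊ < 2 ^ (κ z' + 1) := Nat.lt_pow_succ_log_self (by norm_num) _
    have h4 : ((⌊1 + dist z z'⌋₊ : ℝ)) + 1 ≤ ((2 ^ (κ z' + 1) : ℕ) : ℝ) := by exact_mod_cast h3
    have h5 := Nat.lt_floor_add_one (1 + dist z z')
    push_cast at h4
    linarith
  have hcl : ∀ m : ℕ, ∑ z' ∈ Y with κ z' = m, ((1 + dist z z') ^ (d + 2))⁻¹ ≤
      C * 4 ^ (d + 1) * (1 / 2) ^ m := by
    intro m
    have h3 : ∀ z' ∈ Y.filter (fun z' => κ z' = m), ((1 + dist z z') ^ (d + 2))⁻¹ ≤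
        (((2 : ℝ) ^ m) ^ (d + 2))⁻¹ := by
      intro z' hz'
      have h4 := h1 z'
      rw [(Finset.mem_filter.1 hz').2] at h4
      exact inv_anti₀ (by positivity) (pow_le_pow_left₀ (by positivity) h4 _)
    have h4 : ((Y.filter fun z' => κ z' = m).card : ℝ) ≤ C * (1 + 2 ^ (m + 1)) ^ (d + 1) := by
      refine hP _ z (2 ^ (m + 1)) ?_ (by positivity) fun z' hz' => ?_
      · intro x hx y hy hxy
        exact hY x (Finset.mem_filter.1 hx).1 y (Finset.mem_filter.1 hy).1 hxy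
      · have h5 := h2 z'
        rw [(Finset.mem_filter.1 hz').2] at h5
        linarith
    have h5 : (1 + (2 : ℝ) ^ (m + 1)) ^ (d + 1) ≤ (4 * 2 ^ m) ^ (d + 1) := by
      refine pow_le_pow_left₀ (by positivity) ?_ _
      have : (1 : ℝ) ≤ 2 ^ m := one_le_pow₀ (by norm_num)
      rw [pow_succ]
      linarith
    calc ∑ z' ∈ Y with κ z' = m, ((1 + dist z z') ^ (d + 2))⁻¹
        ≤ ∑ z' ∈ Y with κ z' = m, (((2 : ℝ) ^ m) ^ (d + 2))⁻¹ := Finset.sum_le_sum h3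
      _ = ((Y.filter fun z' => κ z' = m).card : ℝ) * (((2 : ℝ) ^ m) ^ (d + 2))⁻¹ := by
          rw [Finset.sum_const, nsmul_eq_mul]
      _ ≤ (C * (4 * 2 ^ m) ^ (d + 1)) * (((2 : ℝ) ^ m) ^ (d + 2))⁻¹ := by
          refine mul_le_mul_of_nonneg_right (h4.trans ?_) (by positivity)
          exact mul_le_mul_of_nonneg_left h5 hC
      _ = C * 4 ^ (d + 1) * (1 / 2) ^ m := by
          rw [mul_pow, one_div, inv_pow, pow_succ ((2 : ℝ) ^ m) (d + 1)]
          field_simp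
  have h3 : ∀ z' ∈ Y, κ z' ∈ Finset.range (Y.sup κ + 1) := fun p hp =>
    Finset.mem_range.2 (Nat.lt_succ_of_le (Finset.le_sup hp))
  rw [← Finset.sum_fiberwise_of_maps_to h3]
  calc ∑ m ∈ Finset.range (Y.sup κ + 1), ∑ z' ∈ Y with κ z' = m, ((1 + dist z z') ^ (d + 2))⁻¹
      ≤ ∑ m ∈ Finset.range (Y.sup κ + 1), C * 4 ^ (d + 1) * (1 / 2 : ℝ) ^ m :=
        Finset.sum_le_sum fun m _ => hcl m
    _ = C * 4 ^ (d + 1) * ∑ m ∈ Finset.range (Y.sup κ + 1), (1 / 2 : ℝ) ^ m := by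
        rw [Finset.mul_sum]
    _ ≤ C * 4 ^ (d + 1) * 2 := by
        refine mul_le_mul_of_nonneg_left ?_ (by positivity)
        exact sum_geometric_two_le _

end Pool.Agent.H19.KL
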