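import Pool.Agent.H82.KL.Targets

/-!
# Volume of shells
-/

set_option autoImplicit false

namespace Pool.Agent.H19.KL

open Pool.Agent.H82.KL MeasureTheory Set
open scoped ENNReal NNReal

theorem shv_main : T_SHV := by
  intro d hd
  have hfr : Module.finrank ℝ (EE d) = d := finrank_euclideanSpace_fin
  set c : ℝ≥0∞ := volume (Metric.ball (0 : EE d) 1) with hc
  have hct : c ≠ ⊤ := measure_ball_lt_top.ne
  have hball : ∀ (x : EE d) (s : ℝ), 0 ≤ s →
      volume (Metric.ball x s) = ENNReal.ofReal (s ^ d) * c := by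
    intro x s hs
    rcases hs.eq_or_lt with h | h
    · rw [← h, Metric.ball_zero, measure_empty, zero_pow (by omega), ENNReal.ofReal_zero, zero_mul]
    · rw [Measure.addHaar_ball_of_pos volume x h, hfr]
  have hcball : ∀ (x : EE d) (s : ℝ), 0 ≤ s →
      volume (Metric.closedBall x s) = ENNReal.ofReal (s ^ d) * c := by
    intro x s hs
    rw [Measure.addHaar_closedBall volume x hs, hfr]
  refine ⟨c.toNNReal * Real.toNNReal (2 * d * 22 ^ (d - 1)), fun R t m x hR ht0 htR hm0 hmR => ?_⟩
  set s : ℝ := max (t - m) 0 with hs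
  have hs0 : 0 ≤ s := le_max_right _ _
  have hst : s ≤ t + m := max_le (by linarith) (by linarith)
  have hsd : t + m - s ≤ 2 * m := by
    have : t - m ≤ s := le_max_left _ _
    linarith
  have hsub : {y : EE d | |‖y - x‖ - t| ≤ m} ⊆ Metric.closedBall x (t + m) \ Metric.ball x s := by
    intro y hy
    have hy' : |‖y - x‖ - t| ≤ m := hy
    obtain ⟨h1, h2⟩ := abs_le.1 hy'
    refine ⟨?_, ?_⟩
    · rw [Metric.mem_closedBall, dist_eq_norm]
      linarith
    · rw [Metric.mem_ball, dist_eq_norm, not_lt]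
      exact max_le (by linarith) (norm_nonneg _)
  have hsub2 : Metric.ball x s ⊆ Metric.closedBall x (t + m) :=
    (Metric.ball_subset_ball hst).trans Metric.ball_subset_closedBall
  have h1 : volume (Metric.closedBall x (t + m) \ Metric.ball x s) =
      ENNReal.ofReal ((t + m) ^ d - s ^ d) * c := by
    rw [measure_sdiff hsub2 measurableSet_ball.nullMeasurableSet measure_ball_lt_top.ne,
      hball x s hs0, hcball x (t + m) (by linarith), ENNReal.ofReal_sub _ (by positivity),
      ENNReal.sub_mul]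
    intro _ _
    exact hct
  have h2 : (t + m) ^ d - s ^ d ≤ 2 * d * 22 ^ (d - 1) * (R ^ (d - 1) * m) := by
    have h3 := abs_pow_sub_pow_le (t + m) s d
    have h4 : |t + m - s| ≤ 2 * m := by rw [abs_of_nonneg (by linarith)]; exact hsd
    have h5 : max |t + m| |s| ≤ 22 * R := by
      rw [abs_of_nonneg (by linarith : 0 ≤ t + m), abs_of_nonneg hs0]
      exact max_le (by linarith) (by linarith)
    calc (t + m) ^ d - s ^ d ≤ |(t + m) ^ d - s ^ d| := le_abs_self _
      _ ≤ |t + m - s| * d * max |t + m| |s| ^ (d - 1) := h3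
      _ ≤ (2 * m) * d * (22 * R) ^ (d - 1) := by gcongr
      _ = 2 * d * 22 ^ (d - 1) * (R ^ (d - 1) * m) := by rw [mul_pow]; ring
  have h6 : R ^ ((d : ℝ) - 1) = R ^ (d - 1) := by
    rw [← Real.rpow_natCast, Nat.cast_sub hd, Nat.cast_one]
  calc volume {y : EE d | |‖y - x‖ - t| ≤ m}
      ≤ volume (Metric.closedBall x (t + m) \ Metric.ball x s) := measure_mono hsub
    _ = ENNReal.ofReal ((t + m) ^ d - s ^ d) * c := h1
    _ ≤ ENNReal.ofReal (2 * d * 22 ^ (d - 1) * (R ^ (d - 1) * m)) * c := by gcongr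
    _ = ((c.toNNReal * Real.toNNReal (2 * d * 22 ^ (d - 1)) : ℝ≥0) : ℝ≥0∞) *
          ENNReal.ofReal (R ^ ((d : ℝ) - 1) * m) := by
        rw [h6, ENNReal.ofReal_mul (by positivity), ENNReal.coe_mul, ENNReal.coe_toNNReal hct]
        change ENNReal.ofReal (2 * d * 22 ^ (d - 1)) * ENNReal.ofReal (R ^ (d - 1) * m) * c =
          c * ENNReal.ofReal (2 * d * 22 ^ (d - 1)) * ENNReal.ofReal (R ^ (d - 1) * m)
        ring

end Pool.Agent.H19.KL
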