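import Pool.Agent.H82.KL.Targets

/-!
# Three points of the unit sphere are not collinear; plateau symbols
-/

set_option autoImplicit false

namespace Pool.Agent.H19.KL

open Pool.Agent.H82.KL

open MeasureTheory Set

theorem sph_gram {d : ℕ} (b u v : EE d) (hb : ‖b‖ = 1) (hu : ‖b + u‖ = 1) (hv : ‖b + v‖ = 1) :
    ‖u‖ ^ 2 * ‖v‖ ^ 2 / 4 * ‖u - v‖ ^ 2 ≤ ‖u‖ ^ 2 * ‖v‖ ^ 2 - (inner ℝ u v) ^ 2 := by
  have h1 := (Matrix.posSemidef_gram ℝ ![b, u, v]).det_nonneg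
  rw [Matrix.det_fin_three] at h1
  simp only [Matrix.gram_apply, Matrix.cons_val_zero, Matrix.cons_val_one, Matrix.cons_val] at h1
  have e1 : inner ℝ b u = -(‖u‖ ^ 2) / 2 := by
    have h := norm_add_sq_real b u
    rw [hu, hb] at h
    linarith
  have e2 : inner ℝ b v = -(‖v‖ ^ 2) / 2 := by
    have h := norm_add_sq_real b v
    rw [hv, hb] at h
    linarith
  have e3 := norm_sub_sq_real u v
  rw [real_inner_comm b u, real_inner_comm b v, real_inner_comm u v, e1, e2,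
    real_inner_self_eq_norm_sq, real_inner_self_eq_norm_sq, real_inner_self_eq_norm_sq, hb] at h1
  rw [e3]
  nlinarith

theorem sph_one {d : ℕ} (b u v : EE d) (α β : ℝ) (hb : ‖b‖ = 1) (hu : ‖b + u‖ = 1)
    (hv : ‖b + v‖ = 1) : ‖u - v‖ / 2 * (|β| * ‖v‖) ≤ ‖α • u + β • v‖ := by
  have h0 : ‖u - v‖ ≤ 2 := by
    have h : u - v = (b + u) - (b + v) := by abel
    rw [h]
    calc ‖(b + u) - (b + v)‖ ≤ ‖b + u‖ + ‖b + v‖ := norm_sub_le _ _
      _ = 2 := by rw [hu, hv]; norm_num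
  rcases eq_or_ne u 0 with hu0 | hu0
  · rw [hu0, smul_zero, zero_add, norm_smul, Real.norm_eq_abs]
    rw [hu0] at h0
    have h1 : 0 ≤ |β| * ‖v‖ := by positivity
    nlinarith
  · have hP : 0 < ‖u‖ ^ 2 := by
      have := norm_pos_iff.2 hu0
      positivity
    have h1 := sph_gram b u v hb hu hv
    have h2 : ‖α • u + β • v‖ ^ 2 = α ^ 2 * ‖u‖ ^ 2 + 2 * (α * β * inner ℝ u v) +
        β ^ 2 * ‖v‖ ^ 2 := by
      rw [norm_add_sq_real, norm_smul, norm_smul, real_inner_smul_left, real_inner_smul_right,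
        mul_pow, mul_pow, Real.norm_eq_abs, Real.norm_eq_abs, sq_abs, sq_abs]
      ring
    refine abs_le_of_sq_le_sq' ?_ (norm_nonneg _) |>.2
    rw [h2]
    have h3 : ‖u‖ ^ 2 * (‖u - v‖ / 2 * (|β| * ‖v‖)) ^ 2 ≤ ‖u‖ ^ 2 *
        (α ^ 2 * ‖u‖ ^ 2 + 2 * (α * β * inner ℝ u v) + β ^ 2 * ‖v‖ ^ 2) := by
      have h4 : ‖u‖ ^ 2 * (‖u - v‖ / 2 * (|β| * ‖v‖)) ^ 2 =
          β ^ 2 * (‖u‖ ^ 2 * ‖v‖ ^ 2 / 4 * ‖u - v‖ ^ 2) := by
        rw [mul_pow, mul_pow, sq_abs]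
        ring
      rw [h4]
      nlinarith [sq_nonneg (α * ‖u‖ ^ 2 + β * inner ℝ u v),
        mul_le_mul_of_nonneg_left h1 (sq_nonneg β)]
    exact le_of_mul_le_mul_left h3 hP

theorem sph_main : T_SPH := by
  intro d a b c α β ha hb hc
  have h1 : b + (a - b) = a := by abel
  have h2 : b + (c - b) = c := by abel
  have h3 : (a - b) - (c - b) = a - c := by abel
  constructor
  · have h := sph_one b (a - b) (c - b) α β hb (by rw [h1, ha]) (by rw [h2, hc])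
    rwa [h3] at h
  · have h := sph_one b (c - b) (a - b) β α hb (by rw [h2, hc]) (by rw [h1, ha])
    rw [add_comm] at h
    have h4 : (c - b) - (a - b) = -(a - c) := by abel
    rwa [h4, norm_neg] at h

end Pool.Agent.H19.KL
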